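import Pool.Agent.Helper17_LPC.Vals

/-!
# Upper bounds for the density of lattice packings in the dimensions 11 to 20

For `n = 11, ..., 20` the supremum of the densities of the packings of `ℝ^n` by unit balls whose centres form an
additive subgroup (the supremum on the left side of the frozen statement of the problem) is at most the
number in the list.

Proof: linear programming bound with a positive definite function (a polynomial times a Gaussian), together with
an inequality for the classes of the lattice `L` modulo `2 L`: if the minimal norm is `s`, `2 ≤ τ < 2 n / (n - 1)`,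
then the number of the pairs `± v ≠ 0` of `L` of norm less than `(4 - τ) s` plus `1 / n` times the number of the
pairs with norm between `(4 - τ) s` and `τ s` is at most `2 ^ n - 1`.
-/

set_option autoImplicit false

namespace Pool.Agent.Results.MP_37fa12_co.LatticeUpperBounds

theorem result :
    ∀ a ∈ ([(11, 0.09505), (12, 0.06805), (13, 0.04885), (14, 0.0353), (15, 0.02576),
        (16, 0.01907), (17, 0.01436), (18, 0.01103), (19, 0.00859), (20, 0.00675)] : List (ℕ × ℝ)),
      (⨆ (L : AddSubgroup (EuclideanSpace ℝ (Fin a.1)))
          (_ : (L : Set (EuclideanSpace ℝ (Fin a.1))).Pairwise (fun x y => 2 ≤ dist x y)),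
          Filter.limsup (fun R : ℝ =>
            MeasureTheory.volume
                ((⋃ x ∈ (L : Set (EuclideanSpace ℝ (Fin a.1))), Metric.ball x 1) ∩
                  Metric.ball (0 : EuclideanSpace ℝ (Fin a.1)) R) /
              MeasureTheory.volume (Metric.ball (0 : EuclideanSpace ℝ (Fin a.1)) R))
            Filter.atTop) ≤ ENNReal.ofReal a.2 := by
  intro a ha
  refine iSup₂_le fun L hL => ?_
  simp only [List.mem_cons, List.not_mem_nil, or_false] at ha
  rcases ha with rfl | rfl | rfl | rfl | rfl | rfl | rfl | rfl | rfl | rfl
  · exact Pool.Agent.LPC.H17.val11 L hL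
  · exact Pool.Agent.LPC.H17.val12 L hL
  · exact Pool.Agent.LPC.H17.val13 L hL
  · exact Pool.Agent.LPC.H17.val14 L hL
  · exact Pool.Agent.LPC.H17.val15 L hL
  · exact Pool.Agent.LPC.H17.val16 L hL
  · exact Pool.Agent.LPC.H17.val17 L hL
  · exact Pool.Agent.LPC.H17.val18 L hL
  · exact Pool.Agent.LPC.H17.val19 L hL
  · exact Pool.Agent.LPC.H17.val20 L hL

end Pool.Agent.Results.MP_37fa12_co.LatticeUpperBounds
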